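import Pool.Agent.H23.NVK.MTargets

/-!
# Board nvk_modules, row M_EUL: Euler products over `α →₀ ℕ`
-/

set_option autoImplicit false

open Filter Topology

namespace Pool.Agent.H85.NVK

open Pool.Agent.H23.NVK

section

variable {α : Type} (f : α → ℕ → ℝ)

open Classical in
/-- the product on the elements with support in `T` -/
noncomputable def FT (T : Finset α) (n : α →₀ ℕ) : ℝ := if n.support ⊆ T then n.prod f else 0

open Classical in
lemma FT_insert (h0 : ∀ p, f p 0 = 1) {p : α} {T : Finset α} (_hp : p ∉ T) (n : α →₀ ℕ) :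
    FT f (insert p T) n = f p (n p) * FT f T (n.erase p) := by
  unfold FT
  have h1 : (n.erase p).support ⊆ T ↔ n.support ⊆ insert p T := by
    rw [Finsupp.support_erase, Finset.subset_insert_iff]
  by_cases h : n.support ⊆ insert p T
  · rw [if_pos h, if_pos (h1.2 h), Finsupp.mul_prod_erase' n p f h0]
  · rw [if_neg h, if_neg (fun h' => h (h1.1 h')), mul_zero]

lemma hasSum_FT (h0 : ∀ p, f p 0 = 1) (hs : ∀ p, Summable fun k => |f p k|) (T : Finset α) :
    Summable (fun n => |FT f T n|) ∧ HasSum (FT f T) (∏ p ∈ T, ∑' k, f p k) := by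
  classical
  induction T using Finset.induction_on with
  | empty =>
    have h1 : ∀ n : α →₀ ℕ, n ≠ 0 → FT f ∅ n = 0 := by
      intro n hn
      unfold FT
      rw [if_neg]
      intro h
      exact hn (Finsupp.support_eq_empty.1 (Finset.subset_empty.1 h))
    have h2 : FT f ∅ 0 = 1 := by
      unfold FT
      rw [if_pos (by simp), Finsupp.prod_zero_index]
    constructor
    · refine (hasSum_single (0 : α →₀ ℕ) ?_).summable
      intro n hn
      rw [h1 n hn, abs_zero]
    · have h3 := hasSum_single (f := FT f ∅) (0 : α →₀ ℕ) h1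
      rw [h2] at h3
      rw [Finset.prod_empty]
      exact h3
  | insert p T hp ih =>
    obtain ⟨ih1, ih2⟩ := ih
    set g : (α →₀ ℕ) → ℕ × (α →₀ ℕ) := fun n => (n p, n.erase p) with hg
    have hinj : Function.Injective g := by
      intro n m h
      have e1 : n p = m p := congrArg Prod.fst h
      have e2 : n.erase p = m.erase p := congrArg Prod.snd h
      rw [← Finsupp.single_add_erase p n, ← Finsupp.single_add_erase p m, e1, e2]
    set H : ℕ × (α →₀ ℕ) → ℝ := fun x => f p x.1 * FT f T x.2 with hH
    have hcomp : FT f (insert p T) = H ∘ g := by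
      funext n
      exact FT_insert f h0 hp n
    have hout : ∀ x, x ∉ Set.range g → H x = 0 := by
      rintro ⟨k, m⟩ hx
      by_contra hcon
      apply hx
      have h1 : m.support ⊆ T := by
        by_contra h2
        apply hcon
        show f p k * FT f T m = 0
        unfold FT
        rw [if_neg h2, mul_zero]
      have h3 : m p = 0 := by
        rw [← Finsupp.notMem_support_iff]
        exact fun h => hp (h1 h)
      refine ⟨Finsupp.single p k + m, ?_⟩
      show ((Finsupp.single p k + m) p, (Finsupp.single p k + m).erase p) = (k, m)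
      rw [Finsupp.add_apply, Finsupp.single_eq_same, h3, add_zero, Finsupp.erase_add,
        Finsupp.erase_single, zero_add, Finsupp.erase_of_notMem_support
          (Finsupp.notMem_support_iff.2 h3)]
    have hHs : Summable fun x => |H x| := by
      have h1 := (hs p).mul_of_nonneg ih1 (fun k => abs_nonneg _) (fun n => abs_nonneg _)
      refine h1.congr ?_
      rintro ⟨k, m⟩
      exact (abs_mul _ _).symm
    have hHh : HasSum H ((∑' k, f p k) * ∏ q ∈ T, ∑' k, f q k) := by
      have h1 : Summable (f p) := (hs p).of_abs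
      exact h1.hasSum.mul ih2 hHs.of_abs
    rw [Finset.prod_insert hp, hcomp]
    refine ⟨?_, (hinj.hasSum_iff hout).2 hHh⟩
    exact hHs.comp_injective hinj

end

lemma main {α : Type} (f : α → ℕ → ℝ) (h0 : ∀ p, f p 0 = 1)
    (hsum : Summable (fun x : α × ℕ => |f x.1 (x.2 + 1)|)) :
    Summable (fun n : α →₀ ℕ => |n.prod f|) ∧
    Multipliable (fun p : α => ∑' k : ℕ, f p k) ∧
    ∑' n : α →₀ ℕ, n.prod f = ∏' p : α, ∑' k : ℕ, f p k := by
  classical
  have hs1 : ∀ p, Summable fun k => |f p (k + 1)| := fun p => hsum.prod_factor p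
  have hs : ∀ p, Summable fun k => |f p k| := fun p => (summable_nat_add_iff 1).1 (hs1 p)
  set a : α → ℝ := fun p => ∑' k, |f p (k + 1)| with ha
  have has : Summable a := hsum.prod
  have ha0 : ∀ p, 0 ≤ a p := fun p => tsum_nonneg fun k => abs_nonneg _
  -- absolute summability
  have habs : ∀ n : α →₀ ℕ, |n.prod f| = n.prod fun p k => |f p k| := by
    intro n
    unfold Finsupp.prod
    rw [Finset.abs_prod]
  have h0' : ∀ p, (fun p k => |f p k|) p 0 = 1 := by
    intro p
    show |f p 0| = 1
    rw [h0, abs_one]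
  have hB : ∀ p, ∑' k, |f p k| = 1 + a p := by
    intro p
    rw [(hs p).tsum_eq_zero_add, h0, abs_one]
  have hS : Summable (fun n : α →₀ ℕ => |n.prod f|) := by
    refine summable_of_sum_le (c := Real.exp (∑' p, a p)) (fun n => abs_nonneg _) ?_
    intro U
    set T : Finset α := U.biUnion Finsupp.support with hT
    have h1 := hasSum_FT (fun p k => |f p k|) h0' (fun p => by
      refine (hs p).congr fun k => ?_
      show |f p k| = |(|f p k|)|
      rw [abs_abs]) T
    have h2 : ∀ n ∈ U, |n.prod f| = FT (fun p k => |f p k|) T n := by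
      intro n hn
      unfold FT
      rw [if_pos (Finset.subset_biUnion_of_mem Finsupp.support hn), habs]
    have h3 : ∀ n, 0 ≤ FT (fun p k => |f p k|) T n := by
      intro n
      unfold FT
      split_ifs
      · exact Finset.prod_nonneg fun p _ => abs_nonneg _
      · exact le_rfl
    calc ∑ n ∈ U, |n.prod f| = ∑ n ∈ U, FT (fun p k => |f p k|) T n := Finset.sum_congr rfl h2
      _ ≤ ∏ p ∈ T, ∑' k, |f p k| := sum_le_hasSum U (fun n _ => h3 n) h1.2
      _ = ∏ p ∈ T, (1 + a p) := Finset.prod_congr rfl fun p _ => hB p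
      _ ≤ ∏ p ∈ T, Real.exp (a p) := by
          refine Finset.prod_le_prod (fun p _ => by have := ha0 p; linarith) fun p _ => ?_
          rw [add_comm]
          exact Real.add_one_le_exp _
      _ = Real.exp (∑ p ∈ T, a p) := (Real.exp_sum _ _).symm
      _ ≤ Real.exp (∑' p, a p) :=
          Real.exp_le_exp.2 (has.sum_le_tsum T fun p _ => ha0 p)
  -- multipliable
  have hA : ∀ p, ∑' k, f p k = 1 + ∑' k, f p (k + 1) := by
    intro p
    rw [((hs p).of_abs).tsum_eq_zero_add, h0]
  have hM : Multipliable (fun p : α => ∑' k : ℕ, f p k) := by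
    have h1 : Summable fun p => ‖∑' k, f p (k + 1)‖ := by
      refine Summable.of_nonneg_of_le (fun p => norm_nonneg _) (fun p => ?_) has
      have h2 := norm_tsum_le_tsum_norm (f := fun k => f p (k + 1)) (by
        simpa only [Real.norm_eq_abs] using hs1 p)
      simpa only [Real.norm_eq_abs] using h2
    have h3 := multipliable_one_add_of_summable h1
    refine h3.congr fun p => ?_
    rw [hA]
  refine ⟨hS, hM, ?_⟩
  -- the product
  have hP : HasProd (fun p : α => ∑' k : ℕ, f p k) (∑' n : α →₀ ℕ, n.prod f) := by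
    have h1 : Tendsto (fun T : Finset α => ∑' n : α →₀ ℕ, FT f T n) atTop
        (𝓝 (∑' n : α →₀ ℕ, n.prod f)) := by
      refine tendsto_tsum_of_dominated_convergence (bound := fun n : α →₀ ℕ => |n.prod f|) hS
        (fun n => ?_) (Eventually.of_forall fun T n => ?_)
      · refine tendsto_const_nhds.congr' ?_
        filter_upwards [eventually_ge_atTop n.support] with T hT
        unfold FT
        rw [if_pos hT]
      · rw [Real.norm_eq_abs]
        unfold FT
        split_ifs
        · exact le_rfl
        · rw [abs_zero]; exact abs_nonneg _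
    have h2 : ∀ T : Finset α, ∑' n : α →₀ ℕ, FT f T n = ∏ p ∈ T, ∑' k, f p k := fun T =>
      (hasSum_FT f h0 hs T).2.tsum_eq
    simp only [h2] at h1
    exact h1
  exact hP.tprod_eq.symm

theorem pf_EUL : T_EUL := by
  intro α f h0 hsum
  obtain ⟨h1, h2, h3⟩ := main f h0 hsum
  refine ⟨h1, h2, h3, ?_⟩
  obtain ⟨-, -, h4⟩ := main (fun p k => |f p k|) (fun p => by
    show |f p 0| = 1
    rw [h0, abs_one]) (by
    refine hsum.congr fun x => ?_
    show |f x.1 (x.2 + 1)| = |(|f x.1 (x.2 + 1)|)|
    rw [abs_abs])
  rw [← h4]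
  refine tsum_congr fun n => ?_
  unfold Finsupp.prod
  rw [Finset.abs_prod]

end Pool.Agent.H85.NVK
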